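import Pool.Agent.H78.Fac.Head

set_option autoImplicit false

namespace Pool.Agent.Results.MP_677ce9_nt.FourFifths

/-- For every `P ∈ ℤ[x]` of degree at least two there is a constant `C` such that for all `N ≥ 1`
at most `C N^{4/5}` integers `n ≤ N` make `n! = P(x)` solvable in integers `x`.
With `P = x (x + 1)`: the number of `n ≤ N` with `f(n) = 1` is `O(N^{4/5})`. -/
theorem result (P : Polynomial ℤ) (hP : 2 ≤ P.natDegree) :
    ∃ C : ℝ, ∀ N : ℕ, 1 ≤ N →
      (Set.ncard {n : ℕ | n ≤ N ∧ ∃ x : ℤ, P.eval x = (n.factorial : ℤ)} : ℝ)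
        ≤ C * (N : ℝ) ^ (4 / 5 : ℝ) :=
  Pool.H78.Fac.main_count P hP

end Pool.Agent.Results.MP_677ce9_nt.FourFifths
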